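import Pool.Agent.Helper70.GUM.St2

/-!
Module ACT of GUM: the action on functions.
-/

set_option autoImplicit false

namespace Pool.Agent.Helper45.GUM

open Pool.Agent.Helper70.GUM Module OG UN
open scoped Classical

universe u v w z y o

section

variable {k : Type u} {F : Type v} {K : Type z} {E : Type y} {Ω : Type o} [Field k] [Field F]
  [Algebra k F] {σ : F ≃ₐ[k] F} [Field K] {hσ : QE σ} [Group E] [MulAction E Ω] {H : Set E} {S : Set Ω}

theorem ivn_ne (g : Hei hσ) (hg : g ≠ 1) : ivn g ≠ 1 := by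
  have hc := g.c_ne hg
  intro h
  have h1 := ivn_c g hc
  rw [h, Hei.one_c] at h1
  exact one_div_ne_zero hc h1.symm

theorem ivn_ivn (g : Hei hσ) (hg : g ≠ 1) : ivn (ivn g) = g := by
  have hc := g.c_ne hg
  have hc2 := (ivn g).c_ne (ivn_ne g hg)
  apply Hei.ext
  · rw [ivn_a _ hc2, ivn_a g hc, ivn_c g hc]
    field_simp
  · rw [ivn_c _ hc2, ivn_c g hc, one_div_one_div]

theorem scl_scl (t : F) (ht : t ≠ 0) (g : Hei hσ) : scl t (scl t⁻¹ g) = g := by
  have h1 : σ t * σ t⁻¹ = 1 := by rw [← map_mul, mul_inv_cancel₀ ht, map_one]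
  apply Hei.ext
  · rw [scl_a, scl_a]
    linear_combination g.a * h1
  · rw [scl_c, scl_c]
    have h2 : t * t⁻¹ = 1 := mul_inv_cancel₀ ht
    linear_combination (t * t⁻¹ * g.c) * h1 + g.c * h2

variable (G : G3 hσ H S)

theorem e_inv (g h : Hei hσ) : (G.e g)⁻¹ • G.w h = G.w (g⁻¹ * h) := by
  rw [inv_smul_eq_iff, G.e_w, mul_inv_cancel_left]

theorem e_inv0 (g : Hei hσ) : (G.e g)⁻¹ • G.w0 = G.w0 := by
  rw [inv_smul_eq_iff, G.e_w0]

theorem t_inv (t : F) (ht : t ≠ 0) (g : Hei hσ) : (G.tor t)⁻¹ • G.w g = G.w (scl t⁻¹ g) := by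
  rw [inv_smul_eq_iff, G.t_w t ht, scl_scl t ht]

theorem t_inv0 (t : F) (ht : t ≠ 0) : (G.tor t)⁻¹ • G.w0 = G.w0 := by
  rw [inv_smul_eq_iff, G.t_w0 t ht]

end

theorem hACT : StACT.{u, v, z, y, o} := by
  intro k F K E Ω _ _ _ σ _ hσ _ _ H S G
  refine ⟨?_, ?_, ?_, ?_, ?_, ?_, ?_, ?_, ?_, ?_⟩
  · intro g h f
    exact congrArg f (e_inv G g h)
  · intro g f
    exact congrArg f (e_inv0 G g)
  · intro f
    exact congrArg f (by rw [inv_smul_eq_iff, G.n_w1])
  · intro f
    exact congrArg f (by rw [inv_smul_eq_iff, G.n_w0])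
  · intro g f hg
    exact congrArg f (by rw [inv_smul_eq_iff, G.n_w _ (ivn_ne g hg), ivn_ivn g hg])
  · intro t g f ht
    exact congrArg f (t_inv G t ht g)
  · intro t f ht
    exact congrArg f (t_inv0 G t ht)
  · intro g φ
    funext s
    show G.ext φ ((G.e g)⁻¹ • s) = _
    by_cases h : ∃ g', s = G.w g'
    · obtain ⟨g', rfl⟩ := h
      rw [e_inv, G.ext_w, G.ext_w]
    · have h' : ∀ g', s ≠ G.w g' := fun g' hg => h ⟨g', hg⟩
      rw [G.ext_no _ s h', G.ext_no]
      intro g' hg'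
      apply h' (g * g')
      rw [← G.e_w, ← hg', smul_inv_smul]
  · intro t φ ht
    funext s
    show G.ext φ ((G.tor t)⁻¹ • s) = _
    by_cases h : ∃ g', s = G.w g'
    · obtain ⟨g', rfl⟩ := h
      rw [t_inv G t ht, G.ext_w, G.ext_w]
    · have h' : ∀ g', s ≠ G.w g' := fun g' hg => h ⟨g', hg⟩
      rw [G.ext_no _ s h', G.ext_no]
      intro g' hg'
      apply h' (scl t g')
      rw [← G.t_w t ht, ← hg', smul_inv_smul]
  · intro f hf
    funext s
    show f s = f G.w0 * G.del K s + G.ext (fun g => f (G.w g)) s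
    by_cases h0 : s = G.w0
    · subst h0
      rw [G.ext_w0, G3.del, if_pos rfl, mul_one, add_zero]
    · rw [G3.del, if_neg h0, mul_zero, zero_add]
      by_cases h : ∃ g', s = G.w g'
      · obtain ⟨g', rfl⟩ := h
        rw [G.ext_w]
      · have h' : ∀ g', s ≠ G.w g' := fun g' hg => h ⟨g', hg⟩
        rw [G.ext_no _ s h']
        apply hf
        intro hs
        rcases (G.cov s).1 hs with h1 | h1
        · exact h0 h1
        · exact h h1

end Pool.Agent.Helper45.GUM
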